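import Mathlib

/-! Sequences `ℕ → R` as a module over `R[X]` (the variable acts as the shift). -/

open Polynomial

namespace PrimeLinC

variable {R : Type*} [CommRing R]

/-- The shift of sequences. -/
def shift (R : Type*) [CommRing R] : Module.End R (ℕ → R) where
  toFun F := fun k => F (k + 1)
  map_add' _ _ := rfl
  map_smul' _ _ := rfl

theorem shift_pow_apply (i : ℕ) (F : ℕ → R) (k : ℕ) : ((shift R) ^ i) F k = F (k + i) := by
  induction i generalizing F k with
  | zero => rfl
  | succ i ih =>
    rw [pow_succ, Module.End.mul_apply, ih]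
    show F (k + i + 1) = F (k + (i + 1))
    rw [add_assoc]

/-- `P` acts on the sequence `F`. -/
noncomputable def act (P : R[X]) (F : ℕ → R) : ℕ → R := aeval (shift R) P F

theorem act_apply_of_lt {P : R[X]} {n : ℕ} (h : P.natDegree < n) (F : ℕ → R) (k : ℕ) :
    act P F k = ∑ i ∈ Finset.range n, P.coeff i * F (k + i) := by
  unfold act
  rw [aeval_eq_sum_range' h, LinearMap.sum_apply, Finset.sum_apply]
  refine Finset.sum_congr rfl fun i _ => ?_
  rw [LinearMap.smul_apply, Pi.smul_apply, shift_pow_apply, smul_eq_mul]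

theorem act_apply (P : R[X]) (F : ℕ → R) (k : ℕ) :
    act P F k = ∑ i ∈ Finset.range (P.natDegree + 1), P.coeff i * F (k + i) :=
  act_apply_of_lt (Nat.lt_succ_self _) F k

theorem act_add (P Q : R[X]) (F : ℕ → R) : act (P + Q) F = act P F + act Q F := by
  unfold act; rw [map_add]; rfl

theorem act_sub (P Q : R[X]) (F : ℕ → R) : act (P - Q) F = act P F - act Q F := by
  unfold act; rw [map_sub]; rfl

theorem act_mul (P Q : R[X]) (F : ℕ → R) : act (P * Q) F = act P (act Q F) := by
  unfold act; rw [map_mul]; rfl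

theorem act_add_seq (P : R[X]) (F G : ℕ → R) : act P (F + G) = act P F + act P G := by
  unfold act; rw [map_add]

theorem act_sub_seq (P : R[X]) (F G : ℕ → R) : act P (F - G) = act P F - act P G := by
  unfold act; rw [map_sub]

theorem act_zero_seq (P : R[X]) : act P (0 : ℕ → R) = 0 := by
  unfold act; rw [map_zero]

theorem act_smul_seq (P : R[X]) (c : R) (F : ℕ → R) : act P (c • F) = c • act P F := by
  unfold act; rw [map_smul]

theorem act_one (F : ℕ → R) : act (1 : R[X]) F = F := by
  unfold act; rw [map_one]; rfl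

theorem act_zero (F : ℕ → R) : act (0 : R[X]) F = 0 := by
  unfold act; rw [map_zero]; rfl

theorem act_eq_zero_of_dvd {P Q : R[X]} (h : P ∣ Q) {F : ℕ → R} (hP : act P F = 0) :
    act Q F = 0 := by
  obtain ⟨S, rfl⟩ := h
  rw [mul_comm, act_mul, hP, act_zero_seq]

theorem act_X_pow (n : ℕ) (F : ℕ → R) (k : ℕ) : act (X ^ n : R[X]) F k = F (k + n) := by
  unfold act
  rw [map_pow, aeval_X, shift_pow_apply]

theorem act_monomial (n : ℕ) (a : R) (F : ℕ → R) (k : ℕ) :
    act (monomial n a) F k = a * F (k + n) := by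
  rw [← C_mul_X_pow_eq_monomial]
  unfold act
  rw [map_mul, map_pow, aeval_X, aeval_C, Module.End.mul_apply, Module.algebraMap_end_apply,
    Pi.smul_apply, shift_pow_apply, smul_eq_mul]

/-- `act` and scaling of the roots. -/
theorem act_comp_scale (P : R[X]) (F : ℕ → R) (c c' : R) (h : c' * c = 1) :
    act (P.comp (C c' * X)) (fun k => c ^ k * F k) = fun k => c ^ k * act P F k := by
  have hd : (P.comp (C c' * X)).natDegree < P.natDegree + 1 := by
    refine Nat.lt_succ_of_le ?_
    refine natDegree_comp_le.trans ?_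
    calc P.natDegree * (C c' * X).natDegree ≤ P.natDegree * 1 :=
          Nat.mul_le_mul_left _ ((natDegree_C_mul_le _ _).trans natDegree_X_le)
      _ = _ := mul_one _
  funext k
  rw [act_apply_of_lt hd, act_apply, Finset.mul_sum]
  refine Finset.sum_congr rfl fun i _ => ?_
  rw [comp_C_mul_X_coeff]
  have : c' ^ i * c ^ i = 1 := by rw [← mul_pow, h, one_pow]
  calc P.coeff i * c' ^ i * (c ^ (k + i) * F (k + i))
      = (c' ^ i * c ^ i) * (c ^ k * (P.coeff i * F (k + i))) := by rw [pow_add]; ring
    _ = _ := by rw [this, one_mul]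

end PrimeLinC
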