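import Pool.Agent.PrimeLinC.Gal

/-! The degree of the minimal annihilator is at least the square root of `φ (∏ p)`. -/

open Polynomial

namespace PrimeLinC

theorem exists_prim {S : Set ℂ} (T : Finset ℕ) (hT : ∀ p ∈ T, p.Prime)
    (hp : ∀ p ∈ T, ∀ z ∈ S, ∃ w : ℂ, w ^ p = 1 ∧ w ≠ 1 ∧ z * w ∈ S) {z : ℂ} (hz : z ∈ S) :
    ∃ ζ : ℂ, IsPrimitiveRoot ζ (∏ p ∈ T, p) ∧ z * ζ ∈ S := by
  classical
  induction T using Finset.induction_on with
  | empty => exact ⟨1, by simp, by simpa using hz⟩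
  | insert p T hpT ih =>
    obtain ⟨ζ, hζ, hzζ⟩ := ih (fun q hq => hT q (Finset.mem_insert_of_mem hq))
      (fun q hq => hp q (Finset.mem_insert_of_mem hq))
    obtain ⟨w, hw, hw1, hzw⟩ := hp p (Finset.mem_insert_self _ _) _ hzζ
    have hpp : p.Prime := hT p (Finset.mem_insert_self _ _)
    refine ⟨ζ * w, ?_, by rwa [← mul_assoc]⟩
    have : Fact p.Prime := ⟨hpp⟩
    have how : orderOf w = p := orderOf_eq_prime hw hw1
    have hcop : Nat.Coprime (orderOf ζ) (orderOf w) := by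
      rw [← hζ.eq_orderOf, how]
      refine Nat.Coprime.prod_left fun q hq => ?_
      refine (Nat.coprime_primes (hT q (Finset.mem_insert_of_mem hq)) hpp).2 ?_
      rintro rfl
      exact hpT hq
    rw [IsPrimitiveRoot.iff_orderOf, (Commute.all ζ w).orderOf_mul_eq_mul_orderOf_of_coprime hcop,
      ← hζ.eq_orderOf, how, Finset.prod_insert hpT, mul_comm]

theorem totient_le_sq {Q : ℚ[X]} (hQ : Q ≠ 0) {z ζ : ℂ} {q : ℕ} (hq : 0 < q)
    (hζ : IsPrimitiveRoot ζ q) (hz : (Q.map (algebraMap ℚ ℂ)).eval z = 0)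
    (hzζ : (Q.map (algebraMap ℚ ℂ)).eval (z * ζ) = 0) (hz0 : z ≠ 0) :
    q.totient ≤ Q.natDegree ^ 2 := by
  classical
  have hz' : aeval z Q = 0 := by rwa [eval_map_algebraMap] at hz
  have hzζ' : aeval (z * ζ) Q = 0 := by rwa [eval_map_algebraMap] at hzζ
  have hzi : IsIntegral ℚ z := (isAlgebraic_iff_isIntegral).1 ⟨Q, hQ, hz'⟩
  have hζi : IsIntegral ℚ ζ := (hζ.isIntegral hq).tower_top
  have hfd : FiniteDimensional ℚ (IntermediateField.adjoin ℚ {z, ζ}) :=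
    IntermediateField.finiteDimensional_adjoin_pair hzi hζi
  set E := IntermediateField.adjoin ℚ {z, ζ} with hE
  have hzE : z ∈ E := IntermediateField.subset_adjoin ℚ _ (by simp)
  have hζE : ζ ∈ E := IntermediateField.subset_adjoin ℚ _ (by simp)
  -- lower bound
  have h1 : q.totient ≤ Module.finrank ℚ E := by
    have h2 : q.totient ≤ (minpoly ℤ ζ).natDegree := hζ.totient_le_degree_minpoly
    have h3 : (minpoly ℚ ζ).natDegree = (minpoly ℤ ζ).natDegree := by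
      rw [minpoly.isIntegrallyClosed_eq_field_fractions' ℚ (hζ.isIntegral hq)]
      exact (minpoly.monic (hζ.isIntegral hq)).natDegree_map _
    have h4 : IntermediateField.adjoin ℚ {ζ} ≤ E := by
      rw [hE]; exact IntermediateField.adjoin.mono _ _ _ (by simp)
    have h5 := IntermediateField.finrank_le_of_le_right h4
    rw [IntermediateField.adjoin.finrank hζi, h3] at h5
    exact h2.trans h5
  -- upper bound
  let g : (E →ₐ[ℚ] ℂ) → (Q.rootSet ℂ) × (Q.rootSet ℂ) := fun τ =>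
    (⟨τ ⟨z, hzE⟩, by
      rw [mem_rootSet_of_ne hQ]
      have : aeval (τ ⟨z, hzE⟩) Q = τ (aeval (⟨z, hzE⟩ : E) Q) := aeval_algHom_apply τ _ Q
      rw [this]
      have h6 : aeval (⟨z, hzE⟩ : E) Q = 0 := by
        apply Subtype.ext
        have := aeval_algHom_apply E.val (⟨z, hzE⟩ : E) Q
        rw [show E.val (⟨z, hzE⟩ : E) = z from rfl, hz'] at this
        exact this.symm
      rw [h6, map_zero]⟩,
     ⟨τ ⟨z * ζ, E.mul_mem hzE hζE⟩, by
      rw [mem_rootSet_of_ne hQ]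
      have : aeval (τ ⟨z * ζ, E.mul_mem hzE hζE⟩) Q
          = τ (aeval (⟨z * ζ, E.mul_mem hzE hζE⟩ : E) Q) := aeval_algHom_apply τ _ Q
      rw [this]
      have h6 : aeval (⟨z * ζ, E.mul_mem hzE hζE⟩ : E) Q = 0 := by
        apply Subtype.ext
        have := aeval_algHom_apply E.val (⟨z * ζ, E.mul_mem hzE hζE⟩ : E) Q
        rw [show E.val (⟨z * ζ, E.mul_mem hzE hζE⟩ : E) = z * ζ from rfl, hzζ'] at this
        exact this.symm
      rw [h6, map_zero]⟩)
  have hg : Function.Injective g := by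
    intro τ τ' h
    have ha : τ ⟨z, hzE⟩ = τ' ⟨z, hzE⟩ := congrArg (fun x => (x.1 : ℂ)) h
    have hb : τ ⟨z * ζ, E.mul_mem hzE hζE⟩ = τ' ⟨z * ζ, E.mul_mem hzE hζE⟩ :=
      congrArg (fun x => (x.2 : ℂ)) h
    have hc : (⟨z * ζ, E.mul_mem hzE hζE⟩ : E) = ⟨z, hzE⟩ * ⟨ζ, hζE⟩ := rfl
    have hd : τ ⟨ζ, hζE⟩ = τ' ⟨ζ, hζE⟩ := by
      rw [hc, map_mul, map_mul, ha] at hb
      refine mul_left_cancel₀ ?_ hb
      intro h0
      have : (⟨z, hzE⟩ : E) = 0 := (map_eq_zero τ').1 h0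
      exact hz0 (congrArg Subtype.val this)
    refine IntermediateField.algHom_ext_of_eq_adjoin ℚ hE ?_
    intro x hx
    rcases hx with rfl | hx
    · exact ha
    · rw [Set.mem_singleton_iff] at hx
      subst hx
      exact hd
  have h7 : Fintype.card (E →ₐ[ℚ] ℂ) = Module.finrank ℚ E := AlgHom.card ℚ E ℂ
  have h8 := Fintype.card_le_of_injective g hg
  rw [Fintype.card_prod, h7] at h8
  have h9 : Fintype.card (Q.rootSet ℂ) ≤ Q.natDegree := by
    have := ncard_rootSet_le Q ℂ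
    rwa [Set.ncard_eq_toFinset_card', Set.toFinset_card] at this
  calc q.totient ≤ Module.finrank ℚ E := h1
    _ ≤ _ := h8
    _ ≤ Q.natDegree * Q.natDegree := Nat.mul_le_mul h9 h9
    _ = _ := (sq _).symm

/-- **Degree bound.** A nonzero rational sequence with an annihilator `Q₀`, `Q₀(0) ≠ 0`, which
vanishes on one residue class modulo each prime of `T` satisfies `φ (∏ T) ≤ (deg Q₀)²`. -/
theorem degree_bound {Q₀ : ℚ[X]} {F : ℕ → ℚ} (h0 : Q₀.coeff 0 ≠ 0) (h : act Q₀ F = 0)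
    (hF : F ≠ 0) (T : Finset ℕ) (hT : ∀ p ∈ T, p.Prime) (c : ℕ → ℕ)
    (hv : ∀ p ∈ T, ∀ k, p ∣ k + c p → F k = 0) :
    (∏ p ∈ T, p).totient ≤ Q₀.natDegree ^ 2 := by
  have hQ₀ : Q₀ ≠ 0 := by rintro rfl; simp at h0
  obtain ⟨Q, hQ, hdvd⟩ := exists_isMin hQ₀ h
  have hQne : Q ≠ 0 := hQ.monic.ne_zero
  have hQ1 : Q.natDegree ≠ 0 := by
    intro h1
    have : Q = 1 := hQ.monic.natDegree_eq_zero.1 h1
    have h2 := hQ.ann
    rw [this, act_one] at h2
    exact hF h2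
  have hroot : ∃ z : ℂ, (Q.map (algebraMap ℚ ℂ)).eval z = 0 := by
    refine IsAlgClosed.exists_root _ ?_
    rw [degree_map]
    intro h1
    exact hQ1 (natDegree_eq_of_degree_eq_some h1)
  obtain ⟨z, hz⟩ := hroot
  have hne0 : ∀ z : ℂ, (Q.map (algebraMap ℚ ℂ)).eval z = 0 → z ≠ 0 := by
    rintro z hz rfl
    apply h0
    have h1 : (Q₀.map (algebraMap ℚ ℂ)).eval 0 = 0 := by
      obtain ⟨S, rfl⟩ := hdvd
      rw [Polynomial.map_mul, eval_mul, hz, zero_mul]
    rw [← coeff_zero_eq_eval_zero, coeff_map] at h1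
    exact (map_eq_zero _).1 h1
  obtain ⟨ζ, hζ, hzζ⟩ := exists_prim (S := {z | (Q.map (algebraMap ℚ ℂ)).eval z = 0}) T hT
    (fun p hp z hz => by
      obtain ⟨w, h1, h2, h3⟩ := hQ.partner (hT p hp).pos (c p) (hv p hp) hz
      exact ⟨w, h1, h2, h3⟩) hz
  have hq : 0 < ∏ p ∈ T, p := Finset.prod_pos fun p hp => (hT p hp).pos
  refine (totient_le_sq hQne hq hζ hz hzζ (hne0 z hz)).trans ?_
  exact Nat.pow_le_pow_left (natDegree_le_of_dvd hdvd hQ₀) 2

end PrimeLinC
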