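import Pool.Agent.PrimeLinC.Ann

/-! The minimal annihilator of a rational sequence which vanishes on residue classes. -/

open Polynomial

namespace PrimeLinC

/-- `Q` is the minimal annihilator of the rational sequence `F`. -/
structure IsMin (Q : ℚ[X]) (F : ℕ → ℚ) : Prop where
  monic : Q.Monic
  ann : act Q F = 0
  dvd : ∀ P : ℚ[X], act P F = 0 → Q ∣ P

theorem exists_isMin {Q₀ : ℚ[X]} {F : ℕ → ℚ} (h0 : Q₀ ≠ 0) (h : act Q₀ F = 0) :
    ∃ Q, IsMin Q F ∧ Q ∣ Q₀ := by
  classical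
  let J : Ideal ℚ[X] :=
    { carrier := {P | act P F = 0}
      add_mem' := fun {a b} ha hb => by
        show act (a + b) F = 0
        rw [act_add, show act a F = 0 from ha, show act b F = 0 from hb, add_zero]
      zero_mem' := act_zero F
      smul_mem' := fun c x hx => by
        show act (c • x) F = 0
        rw [smul_eq_mul, act_mul, show act x F = 0 from hx, act_zero_seq] }
  set g := Submodule.IsPrincipal.generator J with hg
  have hmem : g ∈ J := Submodule.IsPrincipal.generator_mem J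
  have hdvd : ∀ P : ℚ[X], act P F = 0 → g ∣ P := fun P hP =>
    (Submodule.IsPrincipal.mem_iff_generator_dvd J).1 hP
  have hg0 : g ≠ 0 := fun h1 => h0 (by
    have := hdvd Q₀ h
    rw [h1] at this
    exact zero_dvd_iff.1 this)
  have hlc : g.leadingCoeff ≠ 0 := leadingCoeff_ne_zero.2 hg0
  have hassoc : ∀ P : ℚ[X], g ∣ P → g * C g.leadingCoeff⁻¹ ∣ P := by
    intro P hP
    have hu : IsUnit (C g.leadingCoeff⁻¹ : ℚ[X]) :=
      isUnit_C.2 (isUnit_iff_ne_zero.2 (inv_ne_zero hlc))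
    exact (hu.mul_right_dvd).2 hP
  refine ⟨g * C g.leadingCoeff⁻¹, ⟨monic_mul_leadingCoeff_inv hg0, ?_, ?_⟩, hassoc _ (hdvd _ h)⟩
  · exact act_eq_zero_of_dvd (dvd_mul_right _ _) hmem
  · exact fun P hP => hassoc _ (hdvd _ hP)

/-- A rational sequence as a complex sequence. -/
noncomputable def cx (F : ℕ → ℚ) : ℕ → ℂ := fun k => (F k : ℂ)

theorem act_map_cx (P : ℚ[X]) (F : ℕ → ℚ) :
    act (P.map (algebraMap ℚ ℂ)) (cx F) = cx (act P F) := by
  funext k
  have hd : (P.map (algebraMap ℚ ℂ)).natDegree < P.natDegree + 1 :=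
    Nat.lt_succ_of_le (natDegree_map_le)
  rw [act_apply_of_lt hd, cx, act_apply, Rat.cast_sum]
  refine Finset.sum_congr rfl fun i _ => ?_
  rw [coeff_map, Rat.cast_mul]
  rfl

theorem IsMin.dvd_cx {Q : ℚ[X]} {F : ℕ → ℚ} (hQ : IsMin Q F) {P : ℂ[X]}
    (hP : act P (cx F) = 0) : Q.map (algebraMap ℚ ℂ) ∣ P := by
  classical
  set Qc := Q.map (algebraMap ℚ ℂ) with hQc
  have hmon : Qc.Monic := hQ.monic.map _
  have hQcann : act Qc (cx F) = 0 := by
    rw [act_map_cx, hQ.ann]; funext k; simp [cx]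
  rw [← modByMonic_eq_zero_iff_dvd hmon]
  set R := P %ₘ Qc with hR
  have hRann : act R (cx F) = 0 := by
    have : R = P - Qc * (P /ₘ Qc) := by
      rw [hR]; exact eq_sub_of_add_eq (modByMonic_add_div P Qc)
    rw [this, act_sub, hP, act_eq_zero_of_dvd (dvd_mul_right _ _) hQcann, sub_zero]
  by_contra hne
  have hdeg : R.degree < Q.degree := by
    have := degree_modByMonic_lt P hmon
    rwa [hQc, degree_map] at this
  have hnd : R.natDegree < Q.natDegree := natDegree_lt_natDegree hne hdeg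
  have hlc : R.coeff R.natDegree ≠ 0 := leadingCoeff_ne_zero.2 hne
  obtain ⟨φ, hφ⟩ : ∃ φ : Module.Dual ℚ ℂ, φ (R.coeff R.natDegree) ≠ 0 := by
    by_contra hcon
    push Not at hcon
    exact hlc ((Module.forall_dual_apply_eq_zero_iff ℚ _).1 hcon)
  let R' : ℚ[X] := ∑ i ∈ Finset.range (R.natDegree + 1), monomial i (φ (R.coeff i))
  have hcoeff : ∀ j, j < R.natDegree + 1 → R'.coeff j = φ (R.coeff j) := by
    intro j hj
    simp only [R', finsetSum_coeff, coeff_monomial]
    rw [Finset.sum_ite_eq' (Finset.range (R.natDegree + 1)) j, if_pos (Finset.mem_range.2 hj)]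
  have hdeg' : R'.natDegree < R.natDegree + 1 := by
    refine Nat.lt_succ_of_le ?_
    refine natDegree_sum_le_of_forall_le _ _ fun i hi => ?_
    exact (natDegree_monomial_le _).trans (Nat.lt_succ_iff.1 (Finset.mem_range.1 hi))
  have hann : act R' F = 0 := by
    funext k
    rw [act_apply_of_lt hdeg']
    have h1 : act R (cx F) k = 0 := by rw [hRann]; rfl
    rw [act_apply] at h1
    have h2 := congrArg φ h1
    rw [map_zero, map_sum] at h2
    rw [Pi.zero_apply, ← h2]
    refine Finset.sum_congr rfl fun i hi => ?_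
    rw [hcoeff i (Finset.mem_range.1 hi)]
    show φ (R.coeff i) * F (k + i) = φ (R.coeff i * (F (k + i) : ℂ))
    have : R.coeff i * (F (k + i) : ℂ) = (F (k + i)) • R.coeff i := by
      rw [Rat.smul_def, mul_comm]
    rw [this, map_smul, smul_eq_mul, mul_comm]
  have hdvd := hQ.dvd R' hann
  have hR'0 : R' ≠ 0 := by
    intro h0
    apply hφ
    rw [← hcoeff _ (Nat.lt_succ_self _), h0, coeff_zero]
  have := natDegree_le_of_dvd hdvd hR'0
  omega

/-- Partner property: if `F` vanishes on a class modulo `d` then every root of the minimal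
annihilator has a partner which differs from it by a `d`-th root of unity `≠ 1`. -/
theorem IsMin.partner {Q : ℚ[X]} {F : ℕ → ℚ} (hQ : IsMin Q F) {d : ℕ} (hd : 0 < d) (c : ℕ)
    (hF : ∀ k, d ∣ k + c → F k = 0) {z : ℂ} (hz : (Q.map (algebraMap ℚ ℂ)).eval z = 0) :
    ∃ w : ℂ, w ^ d = 1 ∧ w ≠ 1 ∧ (Q.map (algebraMap ℚ ℂ)).eval (z * w) = 0 := by
  classical
  set Qc := Q.map (algebraMap ℚ ℂ) with hQc
  have hQcann : act Qc (cx F) = 0 := by
    rw [act_map_cx, hQ.ann]; funext k; simp [cx]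
  set ζ : ℂ := Complex.exp (2 * Real.pi * Complex.I / d) with hζdef
  have hζ : IsPrimitiveRoot ζ d := Complex.isPrimitiveRoot_exp d hd.ne'
  have hζ0 : ζ ≠ 0 := hζ.ne_zero hd.ne'
  -- the relation
  have hrel : ∀ k, ∑ i ∈ Finset.range d, (ζ ^ i) ^ (k + c) * cx F k = 0 := by
    intro k
    rw [← Finset.sum_mul]
    by_cases hk : d ∣ k + c
    · rw [cx, hF k hk]; simp
    · have h1 : ζ ^ (k + c) ≠ 1 := fun h => hk ((hζ.pow_eq_one_iff_dvd _).1 h)
      have h2 : ∑ i ∈ Finset.range d, (ζ ^ i) ^ (k + c) = 0 := by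
        have : ∑ i ∈ Finset.range d, (ζ ^ i) ^ (k + c)
            = ∑ i ∈ Finset.range d, (ζ ^ (k + c)) ^ i := by
          refine Finset.sum_congr rfl fun i _ => ?_
          rw [← pow_mul, ← pow_mul, mul_comm]
        rw [this, geom_sum_eq h1, ← pow_mul, mul_comm (k + c) d, pow_mul, hζ.pow_eq_one,
          one_pow, sub_self, zero_div]
      rw [h2, zero_mul]
  -- the polynomials
  let P : ℕ → ℂ[X] := fun i => Qc.comp (C ((ζ ^ i)⁻¹) * X)
  have hP : ∀ i, act (P i) (fun k => (ζ ^ i) ^ k * cx F k) = 0 := by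
    intro i
    rw [show P i = Qc.comp (C ((ζ ^ i)⁻¹) * X) from rfl,
      act_comp_scale Qc (cx F) (ζ ^ i) ((ζ ^ i)⁻¹) (inv_mul_cancel₀ (pow_ne_zero _ hζ0)), hQcann]
    funext k; simp
  set W : ℂ[X] := ∏ i ∈ (Finset.range d).erase 0, P i with hW
  have hWann : act W (cx F) = 0 := by
    have hexp : cx F = - ∑ i ∈ (Finset.range d).erase 0,
        ((ζ ^ i) ^ c) • (fun k => (ζ ^ i) ^ k * cx F k) := by
      funext k
      have h1 := hrel k
      rw [← Finset.add_sum_erase _ _ (Finset.mem_range.2 hd)] at h1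
      rw [pow_zero, one_pow, one_mul] at h1
      rw [Pi.neg_apply, Finset.sum_apply]
      have h2 : cx F k = - ∑ i ∈ (Finset.range d).erase 0, (ζ ^ i) ^ (k + c) * cx F k :=
        eq_neg_of_add_eq_zero_left h1
      rw [h2]
      congr 1
      refine Finset.sum_congr rfl fun i _ => ?_
      rw [Pi.smul_apply, smul_eq_mul, pow_add]
      ring
    have hsum : act W (∑ i ∈ (Finset.range d).erase 0,
        ((ζ ^ i) ^ c) • (fun k => (ζ ^ i) ^ k * cx F k)) = 0 := by
      unfold act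
      rw [map_sum]
      refine Finset.sum_eq_zero fun i hi => ?_
      have : act W (((ζ ^ i) ^ c) • (fun k => (ζ ^ i) ^ k * cx F k)) = 0 := by
        rw [act_smul_seq, act_eq_zero_of_dvd (Finset.dvd_prod_of_mem _ hi) (hP i), smul_zero]
      exact this
    rw [hexp]
    unfold act at hsum ⊢
    rw [map_neg, hsum, neg_zero]
  have hdvd := hQ.dvd_cx hWann
  have hroot : W.eval z = 0 := by
    obtain ⟨S, hS⟩ := hdvd
    rw [hS, eval_mul, hz, zero_mul]
  rw [hW, eval_prod, Finset.prod_eq_zero_iff] at hroot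
  obtain ⟨i, hi, hi0⟩ := hroot
  rw [Finset.mem_erase, Finset.mem_range] at hi
  refine ⟨(ζ ^ i)⁻¹, ?_, ?_, ?_⟩
  · rw [inv_pow, ← pow_mul, mul_comm, pow_mul, hζ.pow_eq_one, one_pow, inv_one]
  · intro h
    have h1 : ζ ^ i = 1 := by rw [← inv_inv (ζ ^ i), h, inv_one]
    have h2 := (hζ.pow_eq_one_iff_dvd _).1 h1
    exact absurd (Nat.le_of_dvd (Nat.pos_of_ne_zero hi.1) h2) (by omega)
  · simp only [P] at hi0
    rw [eval_comp, eval_mul, eval_C, eval_X, mul_comm] at hi0
    exact hi0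

end PrimeLinC
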