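import Pool.Agent.PrimeLinC.Window

/-! A run of vanishing Hankel determinants gives a recurrence on a long window. -/

open Polynomial Matrix

namespace PrimeLinC

theorem act_apply_of_coeff {P : ℚ[X]} {n : ℕ} (h : ∀ i, n ≤ i → P.coeff i = 0) (F : ℕ → ℚ)
    (k : ℕ) : act P F k = ∑ i ∈ Finset.range n, P.coeff i * F (k + i) := by
  by_cases hP : P = 0
  · subst hP
    rw [act_zero]
    simp
  · refine act_apply_of_lt ?_ F k
    by_contra hn
    exact hP (leadingCoeff_eq_zero.1 (h _ (not_lt.1 hn)))

/-- The Hankel matrix of `s`. -/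
def hank (s : ℕ → ℚ) (m : ℕ) : Matrix (Fin m) (Fin m) ℚ := Matrix.of fun i j => s (i + j)

theorem exists_kernel {s : ℕ → ℚ} {n : ℕ} (h : (hank s n).det = 0) :
    ∃ v : ℚ[X], v ≠ 0 ∧ (∀ i, n ≤ i → v.coeff i = 0) ∧ ∀ k < n, act v s k = 0 := by
  obtain ⟨x, hx, hx0⟩ := Matrix.exists_mulVec_eq_zero_iff.2 h
  let v : ℚ[X] := ∑ i : Fin n, monomial (i : ℕ) (x i)
  have hc : ∀ i : Fin n, v.coeff i = x i := by
    intro i
    simp only [v, finsetSum_coeff, coeff_monomial]
    rw [Finset.sum_eq_single i]
    · rw [if_pos rfl]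
    · intro j _ hj
      rw [if_neg]
      exact fun h => hj (Fin.ext h)
    · intro h
      exact absurd (Finset.mem_univ i) h
  have hc0 : ∀ i, n ≤ i → v.coeff i = 0 := by
    intro i hi
    simp only [v, finsetSum_coeff, coeff_monomial]
    refine Finset.sum_eq_zero fun j _ => ?_
    rw [if_neg]
    have := j.isLt
    omega
  refine ⟨v, ?_, hc0, ?_⟩
  · intro h0
    apply hx
    funext i
    rw [← hc i, h0, coeff_zero]
    rfl
  · intro k hk
    rw [act_apply_of_coeff hc0]
    have h1 := congrFun hx0 ⟨k, hk⟩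
    rw [Matrix.mulVec, Pi.zero_apply] at h1
    rw [← h1, dotProduct, ← Fin.sum_univ_eq_sum_range (fun i => v.coeff i * s (k + i)) n]
    refine Finset.sum_congr rfl fun i _ => ?_
    rw [hc i, mul_comm]
    rfl

theorem kernel_zero {s : ℕ → ℚ} {n : ℕ} (h : (hank s n).det ≠ 0) {w : ℚ[X]}
    (hw : ∀ i, n ≤ i → w.coeff i = 0) (hws : ∀ k < n, act w s k = 0) : w = 0 := by
  by_contra hne
  apply h
  refine Matrix.exists_mulVec_eq_zero_iff.1 ⟨fun i => w.coeff i, ?_, ?_⟩
  · intro h0
    apply hne
    ext i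
    rw [coeff_zero]
    by_cases hi : i < n
    · exact congrFun h0 ⟨i, hi⟩
    · exact hw i (not_lt.1 hi)
  · funext k
    have h1 := hws k k.isLt
    rw [act_apply_of_coeff hw] at h1
    rw [Matrix.mulVec, Pi.zero_apply, dotProduct, ← h1,
      ← Fin.sum_univ_eq_sum_range (fun i => w.coeff i * s (k + i)) n]
    refine Finset.sum_congr rfl fun i _ => ?_
    rw [mul_comm]
    rfl

/-- Division step: if all the values `(P s)(k)`, `k < n`, vanish and the Hankel determinant of
size `n + 1` vanishes, then `(P s)(n) = 0`. -/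
theorem step {s : ℕ → ℚ} {m n : ℕ} (h0 : (hank s m).det ≠ 0) {P : ℚ[X]} (hPm : P.Monic)
    (hPd : P.natDegree = m) (hn : m ≤ n) (hP : ∀ k < n, act P s k = 0)
    (h : (hank s (n + 1)).det = 0) : act P s n = 0 := by
  obtain ⟨v, hv, hvc, hvs⟩ := exists_kernel h
  set q := v /ₘ P with hq
  set w := v %ₘ P with hw
  have hdiv : v = P * q + w := by
    rw [hq, hw, add_comm]; exact (modByMonic_add_div v P).symm
  have hwc : ∀ i, m ≤ i → w.coeff i = 0 := by
    intro i hi
    refine coeff_eq_zero_of_degree_lt ?_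
    refine (degree_modByMonic_lt v hPm).trans_le ?_
    rw [degree_eq_natDegree hPm.ne_zero, hPd]
    exact_mod_cast hi
  have hqd : q.natDegree + m ≤ n := by
    have h1 : v.natDegree ≤ n := by
      by_contra hcon
      exact hv (leadingCoeff_eq_zero.1 (hvc _ (by omega)))
    have h2 : q.natDegree = v.natDegree - P.natDegree := natDegree_divByMonic v hPm
    rw [h2, hPd]
    omega
  have hqs : ∀ k, act (P * q) s k = ∑ i ∈ Finset.range (q.natDegree + 1),
      q.coeff i * act P s (k + i) := by
    intro k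
    rw [mul_comm, act_mul, act_apply]
  have hw0 : w = 0 := by
    refine kernel_zero h0 hwc fun k hk => ?_
    have h1 := hvs k (by omega)
    rw [hdiv, act_add, Pi.add_apply, hqs, Finset.sum_eq_zero, zero_add] at h1
    · exact h1
    · intro i hi
      have := Finset.mem_range.1 hi
      rw [hP _ (by omega), mul_zero]
  rw [hw0, add_zero] at hdiv
  have hq0 : q ≠ 0 := by
    intro h1
    rw [h1, mul_zero] at hdiv
    exact hv hdiv
  have h1 := hvs (n - q.natDegree) (by omega)
  rw [hdiv, hqs, Finset.sum_range_succ, Finset.sum_eq_zero, zero_add] at h1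
  · have h2 : n - q.natDegree + q.natDegree = n := by omega
    rw [h2] at h1
    exact (mul_eq_zero.1 h1).resolve_left (leadingCoeff_ne_zero.2 hq0)
  · intro i hi
    have := Finset.mem_range.1 hi
    rw [hP _ (by omega), mul_zero]

theorem hank_run {s : ℕ → ℚ} {m M : ℕ} (h0 : (hank s m).det ≠ 0)
    (h : ∀ n, m < n → n ≤ M → (hank s n).det = 0) (hM : m < M) :
    ∃ P : ℚ[X], P.Monic ∧ P.natDegree = m ∧ ∀ k < M, act P s k = 0 := by
  obtain ⟨v, hv, hvc, hvs⟩ := exists_kernel (h (m + 1) (Nat.lt_succ_self _) hM)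
  have hvm : v.coeff m ≠ 0 := by
    intro h1
    apply hv
    refine kernel_zero h0 (fun i hi => ?_) (fun k hk => hvs k (by omega))
    rcases hi.eq_or_lt with rfl | hi
    · exact h1
    · exact hvc i hi
  have hvd : v.natDegree = m := by
    refine le_antisymm ?_ (le_natDegree_of_ne_zero hvm)
    by_contra hcon
    exact hv (leadingCoeff_eq_zero.1 (hvc _ (by omega)))
  set P := v * C v.leadingCoeff⁻¹ with hP
  have hPm : P.Monic := monic_mul_leadingCoeff_inv hv
  have hPd : P.natDegree = m := by
    rw [hP, natDegree_mul_leadingCoeff_inv v hv, hvd]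
  refine ⟨P, hPm, hPd, ?_⟩
  have hbase : ∀ k < m + 1, act P s k = 0 := by
    intro k hk
    have h1 : act P s k = v.leadingCoeff⁻¹ * act v s k := by
      have h2 : P.natDegree < v.natDegree + 1 := by omega
      rw [act_apply_of_lt h2, act_apply, Finset.mul_sum]
      refine Finset.sum_congr rfl fun i _ => ?_
      rw [hP, coeff_mul_C]; ring
    rw [h1, hvs k hk, mul_zero]
  have : ∀ n, n ≤ M → ∀ k < n, act P s k = 0 := by
    intro n
    induction n with
    | zero => intro _ k hk; omega
    | succ n ih =>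
      intro hn k hk
      by_cases h1 : n < m + 1
      · exact hbase k (by omega)
      · rcases Nat.lt_succ_iff_lt_or_eq.1 hk with h2 | h2
        · exact ih (by omega) k h2
        · rw [h2]
          exact step h0 hPm hPd (by omega) (ih (by omega)) (h (n + 1) (by omega) hn)
  exact this M le_rfl

end PrimeLinC
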