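import Pool.Agent.PrimeLinC.Num

/-! Non-vanishing Hankel determinants with gaps `3 N log N`. -/

open Finset Matrix

namespace PrimeLinC

/-- Size `0`: the determinant is `1`. -/
theorem hank_zero (s : ℕ → ℚ) : (hank s 0).det ≠ 0 := by
  rw [Matrix.det_isEmpty]
  exact one_ne_zero

/-- In each window `(N, 3 N log N]` (for the sizes `2 m + e`) some Hankel determinant of the
sequence `sp b` is non-zero. -/
theorem exists_size : ∃ N₀ : ℕ, ∀ N : ℕ, N₀ ≤ N → ∀ e < 2, ∀ b : ℕ, b % 2 = 1 → 3 ≤ b → b ≤ 5 →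
    ∃ m : ℕ, N < 2 * m + e ∧ ((2 * m + e : ℕ) : ℝ) ≤ 3 * N * Real.log N ∧
      (hank (sp b) m).det ≠ 0 := by
  obtain ⟨D₀, hD₀⟩ := totient_big
  -- `log N` is large
  have hlog : ∀ᶠ x : ℝ in Filter.atTop, (D₀ : ℝ) + 1000 ≤ Real.log x :=
    Real.tendsto_log_atTop.eventually_ge_atTop _
  obtain ⟨X, hX⟩ := Filter.eventually_atTop.1 hlog
  refine ⟨max ⌈X⌉₊ 1000, fun N hN e he b hb hb3 hb5 => ?_⟩
  have hNX : X ≤ N := (Nat.le_ceil X).trans (by exact_mod_cast (le_max_left _ _).trans hN)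
  have hN1 : (1000 : ℝ) ≤ N := by exact_mod_cast (le_max_right _ _).trans hN
  have hN1' : 1000 ≤ N := (le_max_right _ _).trans hN
  have hl := hX N hNX
  have hD0 : (0 : ℝ) ≤ D₀ := Nat.cast_nonneg _
  set l := Real.log N with hldef
  have hl0 : 1000 ≤ l := by linarith
  -- the parameters
  set D := ⌊2.95 * l⌋₊ with hDdef
  have hDle : (D : ℝ) ≤ 2.95 * l := Nat.floor_le (by positivity)
  have hDlt : 2.95 * l < D + 1 := Nat.lt_floor_add_one _
  have hDD : D₀ ≤ D := by
    have : (D₀ : ℝ) ≤ D := by linarith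
    exact_mod_cast this
  have hD3 : 3 ≤ D := by
    have : (3 : ℝ) ≤ D := by linarith
    exact_mod_cast this
  set M := ⌊(3 * N * l - e) / 2⌋₊ with hMdef
  have he' : (e : ℝ) ≤ 1 := by
    have : e ≤ 1 := by omega
    exact_mod_cast this
  have hpos : 0 ≤ (3 * N * l - e) / 2 := by nlinarith
  have hMle : (M : ℝ) ≤ (3 * N * l - e) / 2 := Nat.floor_le hpos
  have hMlt : (3 * N * l - e) / 2 < M + 1 := Nat.lt_floor_add_one _
  set m₁ := (N - e) / 2 with hm₁
  by_contra hcon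
  push Not at hcon
  have hzero : ∀ n, m₁ < n → n ≤ M → (hank (sp b) n).det = 0 := by
    intro n hn hnM
    refine hcon n (by omega) ?_
    have : (n : ℝ) ≤ M := by exact_mod_cast hnM
    push_cast
    linarith
  -- the largest non-singular size up to `m₁`
  classical
  set m := Nat.findGreatest (fun n => (hank (sp b) n).det ≠ 0) m₁ with hm
  have hm0 : (hank (sp b) m).det ≠ 0 :=
    Nat.findGreatest_spec (P := fun n => (hank (sp b) n).det ≠ 0) (Nat.zero_le m₁)
      (hank_zero (sp b))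
  have hmle : m ≤ m₁ := Nat.findGreatest_le m₁
  have hrun : ∀ n, m < n → n ≤ M → (hank (sp b) n).det = 0 := by
    intro n hn hnM
    by_cases h1 : n ≤ m₁
    · by_contra h2
      exact Nat.findGreatest_is_greatest hn h1 h2
    · exact hzero n (by omega) hnM
  have hmN : (m : ℝ) ≤ N / 2 := by
    have : 2 * m ≤ N := by omega
    have : (2 : ℝ) * m ≤ N := by exact_mod_cast this
    linarith
  have hMD : (m + 3) * D + 1 ≤ M := by
    have h1 : ((m : ℝ) + 3) * D ≤ (N / 2 + 3) * (2.95 * l) :=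
      mul_le_mul (by linarith) hDle (by positivity) (by positivity)
    have h2 : ((m : ℝ) + 3) * D + 1 < M + 1 := by
      nlinarith
    have h3 : (m + 3) * D + 1 < M + 1 := by exact_mod_cast h2
    omega
  have hmM : m < M := by
    have : (m + 3) * 1 ≤ (m + 3) * D := Nat.mul_le_mul_left _ (by omega)
    omega
  obtain ⟨P, hPm, hPd, hP⟩ := hank_run hm0 hrun hmM
  refine window_false hb hb3 hb5 hPm hPd hP hD3 hMD ?_
  refine lt_of_le_of_lt ?_ (hD₀ D hDD N (by omega) hDlt)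
  exact Nat.pow_le_pow_left (by omega) 2

/-- The matrices `M_n` of the problem. -/
theorem det_ne_zero : ∃ N₀ : ℕ, ∀ N : ℕ, N₀ ≤ N → ∀ e < 2,
    ∃ n : ℕ, n % 2 = e ∧ N < n ∧ (n : ℝ) ≤ 3 * N * Real.log N ∧
      (hank entry n).det ≠ 0 := by
  obtain ⟨N₀, h⟩ := exists_size
  refine ⟨N₀, fun N hN e he => ?_⟩
  rcases (show e = 0 ∨ e = 1 by omega) with rfl | rfl
  · obtain ⟨m, h1, h2, h3⟩ := h N hN 0 (by omega) 3 (by omega) (by omega) (by omega)
    exact ⟨2 * m, by omega, by simpa using h1, by simpa using h2, det_even h3⟩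
  · obtain ⟨m, h1, h2, h3⟩ := h N hN 1 (by omega) 5 (by omega) (by omega) (by omega)
    exact ⟨2 * m + 1, by omega, h1, h2, det_odd h3⟩

end PrimeLinC
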