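import Pool.Agent.PrimeLinC.Parity

/-! Chebyshev's bound for the totient of the product of the odd primes up to `D`. -/

open Finset

namespace PrimeLinC

theorem oddPrimes_succ (D : ℕ) : oddPrimes (D + 1)
    = if (D + 1).Prime ∧ D + 1 ≠ 2 then insert (D + 1) (oddPrimes D) else oddPrimes D := by
  rw [oddPrimes, range_add_one, filter_insert]
  rfl

theorem succ_notMem (D : ℕ) : D + 1 ∉ oddPrimes D := by
  intro h
  have := mem_range.1 (mem_filter.1 h).1
  omega

/-- `∏ p ≤ D ∏ (p - 1)` over the odd primes `p ≤ D`. -/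
theorem prod_le {D : ℕ} (hD : 1 ≤ D) :
    ∏ p ∈ oddPrimes D, p ≤ D * ∏ p ∈ oddPrimes D, (p - 1) := by
  induction D, hD using Nat.le_induction with
  | base =>
    have : oddPrimes 1 = ∅ := by decide
    rw [this]
    simp
  | succ D hD ih =>
    rw [oddPrimes_succ]
    split_ifs with h
    · rw [prod_insert (succ_notMem D), prod_insert (succ_notMem D), Nat.add_sub_cancel]
      exact Nat.mul_le_mul_left _ ih
    · exact ih.trans (Nat.mul_le_mul_right _ (Nat.le_succ D))

theorem totient_prod (D : ℕ) :
    (∏ p ∈ oddPrimes D, p).totient = ∏ p ∈ oddPrimes D, (p - 1) := by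
  induction D with
  | zero =>
    have : oddPrimes 0 = ∅ := by decide
    rw [this]
    simp
  | succ D ih =>
    rw [oddPrimes_succ]
    split_ifs with h
    · rw [prod_insert (succ_notMem D), prod_insert (succ_notMem D), Nat.totient_mul, ih,
        Nat.totient_prime h.1]
      refine Nat.Coprime.prod_right fun p hp => ?_
      rw [Nat.coprime_primes h.1 (mem_filter.1 hp).2.1]
      rintro rfl
      exact succ_notMem D hp
    · exact ih

theorem primorial_eq {D : ℕ} (hD : 2 ≤ D) : primorial D = 2 * ∏ p ∈ oddPrimes D, p := by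
  rw [primorial]
  have h2 : 2 ∈ (range (D + 1)).filter Nat.Prime :=
    mem_filter.2 ⟨mem_range.2 (by omega), Nat.prime_two⟩
  rw [← mul_prod_erase _ _ h2]
  congr 1
  refine prod_congr ?_ fun _ _ => rfl
  ext p
  rw [mem_erase, mem_filter, oddPrimes, mem_filter]
  tauto

theorem totient_ge {D : ℕ} (hD : 2 ≤ D) :
    Chebyshev.theta D - Real.log (2 * D)
      ≤ Real.log ((∏ p ∈ oddPrimes D, p).totient : ℝ) := by
  have h1 : primorial D ≤ (2 * D) * (∏ p ∈ oddPrimes D, p).totient := by
    rw [primorial_eq hD, totient_prod, mul_assoc]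
    exact Nat.mul_le_mul_left 2 (prod_le (by omega))
  have hpos : 0 < (∏ p ∈ oddPrimes D, p).totient := by
    rw [Nat.totient_pos]
    exact prod_pos fun p hp => (mem_filter.1 hp).2.1.pos
  have h2 : (primorial D : ℝ) ≤ (2 * D) * ((∏ p ∈ oddPrimes D, p).totient : ℝ) := by
    exact_mod_cast h1
  rw [Chebyshev.theta_eq_log_primorial, Nat.floor_natCast]
  have h3 := Real.log_le_log (by exact_mod_cast primorial_pos D) h2
  rw [Real.log_mul (by positivity) (by positivity)] at h3
  linarith

/-- For large `D` the totient of the product of the odd primes up to `D` exceeds `(N + 1)^2` for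
every `N` with `2.95 log N < D + 1`. -/
theorem totient_big : ∃ D₀ : ℕ, ∀ D : ℕ, D₀ ≤ D → ∀ N : ℕ, 1 ≤ N →
    2.95 * Real.log N < D + 1 → (N + 1) ^ 2 < (∏ p ∈ oddPrimes D, p).totient := by
  have hlog : ∀ᶠ x : ℝ in Filter.atTop, Real.log x ≤ 0.001 * Real.sqrt x := by
    have h := (isLittleO_log_rpow_atTop (r := 1 / 2) (by norm_num)).bound
      (show (0 : ℝ) < 0.001 by norm_num)
    filter_upwards [h, Filter.eventually_ge_atTop (1 : ℝ)] with x hx h1
    rw [← Real.sqrt_eq_rpow, Real.norm_of_nonneg (Real.log_nonneg h1),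
      Real.norm_of_nonneg (Real.sqrt_nonneg x)] at hx
    exact hx
  obtain ⟨X, hX⟩ := Filter.eventually_atTop.1 hlog
  refine ⟨max ⌈X⌉₊ 1000, fun D hD N hN hND => ?_⟩
  have hDX : X ≤ D := (Nat.le_ceil X).trans (by exact_mod_cast (le_max_left _ _).trans hD)
  have hD1 : (1000 : ℝ) ≤ D := by exact_mod_cast (le_max_right _ _).trans hD
  have hD2 : 2 ≤ D := by have := (le_max_right _ _).trans hD; omega
  have hl := hX D hDX
  have hs0 := Real.sqrt_nonneg (D : ℝ)
  have hs1 : Real.sqrt D * Real.sqrt D = D := Real.mul_self_sqrt (by positivity)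
  have hs2 : (1 : ℝ) ≤ Real.sqrt D := Real.one_le_sqrt.2 (by linarith)
  have hs3 : Real.sqrt D ≤ D := by nlinarith
  have hl0 : 0 ≤ Real.log D := Real.log_nonneg (by linarith)
  have hl2 : Real.log 2 < 0.6931471808 := Real.log_two_lt_d9
  have hl3 : 0.6931471803 < Real.log 2 := Real.log_two_gt_d9
  have ha : Real.log (2 * D) = Real.log 2 + Real.log D :=
    Real.log_mul (by norm_num) (by positivity)
  have hb : Real.log (D + 1) ≤ Real.log (2 * D) := Real.log_le_log (by positivity) (by linarith)
  have hc : 2 * Real.sqrt D * Real.log D ≤ 0.002 * D := by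
    have := mul_le_mul_of_nonneg_left hl hs0
    nlinarith
  have hd : Real.log D ≤ 0.001 * D := by linarith
  have hth := Chebyshev.theta_ge D
  have htot := totient_ge hD2
  have hN1 : (1 : ℝ) ≤ N := by exact_mod_cast hN
  have hNl : Real.log (N + 1) ≤ Real.log 2 + Real.log N := by
    rw [← Real.log_mul (by norm_num) (by positivity)]
    exact Real.log_le_log (by positivity) (by linarith)
  have hpos : 0 < (∏ p ∈ oddPrimes D, p).totient := by
    rw [Nat.totient_pos]
    exact prod_pos fun p hp => (mem_filter.1 hp).2.1.pos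
  have key : Real.log (((N : ℝ) + 1) ^ 2)
      < Real.log ((∏ p ∈ oddPrimes D, p).totient : ℝ) := by
    rw [Real.log_pow]
    push_cast
    have e1 : (D : ℝ) * Real.log 2 ≥ D * 0.6931471803 := by
      exact mul_le_mul_of_nonneg_left hl3.le (by positivity)
    nlinarith
  have := (Real.log_lt_log_iff (by positivity) (by exact_mod_cast hpos)).1 key
  exact_mod_cast this

end PrimeLinC
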