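import Pool.Agent.PrimeLinC.Hankel

/-! The parity splitting of the matrix `M_n`. -/

open Polynomial Matrix

namespace PrimeLinC

theorem kernel_vec {s : ℕ → ℚ} {n : ℕ} (h : (hank s n).det ≠ 0) (x : ℕ → ℚ)
    (hx : ∀ k < n, ∑ b ∈ Finset.range n, x b * s (k + b) = 0) : ∀ b < n, x b = 0 := by
  by_contra hcon
  push Not at hcon
  obtain ⟨b, hb, hb0⟩ := hcon
  apply h
  refine Matrix.exists_mulVec_eq_zero_iff.1 ⟨fun i => x i, ?_, ?_⟩
  · intro h0
    exact hb0 (congrFun h0 ⟨b, hb⟩)
  · funext k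
    have h1 := hx k k.isLt
    rw [Matrix.mulVec, Pi.zero_apply, dotProduct, ← h1,
      ← Fin.sum_univ_eq_sum_range (fun i => x i * s (k + i)) n]
    refine Finset.sum_congr rfl fun i _ => ?_
    rw [mul_comm]
    rfl

/-- The entries of `M_n` as a function of `k = i + j - 2`. -/
noncomputable def entry (k : ℕ) : ℚ :=
  if k + 2 = 2 ∨ (Odd (k + 2) ∧ 9 ≤ k + 2 ∧ ¬ (k + 2).Prime) then 1 else 0

theorem entry_zero : entry 0 = 1 := by
  rw [entry, if_pos]
  left; rfl

theorem entry_even {a : ℕ} (ha : a ≠ 0) : entry (2 * a) = 0 := by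
  rw [entry, if_neg]
  rintro (h | ⟨h, -⟩)
  · omega
  · obtain ⟨c, hc⟩ := h
    omega

theorem entry_odd (a : ℕ) : entry (2 * a + 1) = sp 3 a := by
  rw [entry, sp]
  have e : 2 * a + 1 + 2 = 2 * a + 3 := rfl
  rw [e]
  by_cases hp : (2 * a + 3).Prime
  · rw [if_pos hp, if_neg]
    rintro (h | ⟨-, -, h⟩)
    · omega
    · exact h hp
  · rw [if_neg hp, if_pos]
    right
    refine ⟨⟨a + 1, by ring⟩, ?_, hp⟩
    by_contra hlt
    have : a = 0 ∨ a = 1 ∨ a = 2 := by omega
    rcases this with rfl | rfl | rfl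
    · exact hp (by norm_num)
    · exact hp (by norm_num)
    · exact hp (by norm_num)

theorem sp_five (a : ℕ) : sp 5 a = sp 3 (a + 1) := by
  rw [sp, sp]
  have : 2 * (a + 1) + 3 = 2 * a + 5 := by ring
  rw [this]

theorem sum_range_two_mul (g : ℕ → ℚ) (m : ℕ) :
    ∑ j ∈ Finset.range (2 * m), g j
      = ∑ b ∈ Finset.range m, g (2 * b) + ∑ b ∈ Finset.range m, g (2 * b + 1) := by
  induction m with
  | zero => simp
  | succ m ih =>
    rw [show 2 * (m + 1) = 2 * m + 1 + 1 from rfl, Finset.sum_range_succ, Finset.sum_range_succ,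
      ih, Finset.sum_range_succ, Finset.sum_range_succ]
    ring

theorem det_even {m : ℕ} (h : (hank (sp 3) m).det ≠ 0) : (hank entry (2 * m)).det ≠ 0 := by
  intro h0
  obtain ⟨v, hv, hvc, hvs⟩ := exists_kernel h0
  have hrow : ∀ k < 2 * m, ∑ b ∈ Finset.range m, v.coeff (2 * b) * entry (k + 2 * b)
      + ∑ b ∈ Finset.range m, v.coeff (2 * b + 1) * entry (k + (2 * b + 1)) = 0 := by
    intro k hk
    have h1 := hvs k hk
    rw [act_apply_of_coeff hvc, sum_range_two_mul] at h1
    exact h1
  have hev : ∀ b < m, v.coeff (2 * b) = 0 := by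
    refine kernel_vec h (fun b => v.coeff (2 * b)) fun a ha => ?_
    have h1 := hrow (2 * a + 1) (by omega)
    rw [Finset.sum_eq_zero (s := Finset.range m)
      (f := fun b => v.coeff (2 * b + 1) * entry (2 * a + 1 + (2 * b + 1))), add_zero] at h1
    · rw [← h1]
      refine Finset.sum_congr rfl fun b _ => ?_
      rw [show 2 * a + 1 + 2 * b = 2 * (a + b) + 1 by ring, entry_odd]
    · intro b _
      rw [show 2 * a + 1 + (2 * b + 1) = 2 * (a + b + 1) by ring, entry_even (by omega), mul_zero]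
  have hod : ∀ b < m, v.coeff (2 * b + 1) = 0 := by
    refine kernel_vec h (fun b => v.coeff (2 * b + 1)) fun a ha => ?_
    have h1 := hrow (2 * a) (by omega)
    rw [Finset.sum_eq_zero (s := Finset.range m)
      (f := fun b => v.coeff (2 * b) * entry (2 * a + 2 * b)), zero_add] at h1
    · rw [← h1]
      refine Finset.sum_congr rfl fun b _ => ?_
      rw [show 2 * a + (2 * b + 1) = 2 * (a + b) + 1 by ring, entry_odd]
    · intro b hb
      rw [hev b (Finset.mem_range.1 hb), zero_mul]
  apply hv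
  ext i
  rw [coeff_zero]
  by_cases hi : i < 2 * m
  · rcases Nat.even_or_odd' i with ⟨b, rfl | rfl⟩
    · exact hev b (by omega)
    · exact hod b (by omega)
  · exact hvc i (not_lt.1 hi)

theorem det_odd {m : ℕ} (h : (hank (sp 5) m).det ≠ 0) : (hank entry (2 * m + 1)).det ≠ 0 := by
  intro h0
  obtain ⟨v, hv, hvc, hvs⟩ := exists_kernel h0
  have hrow : ∀ k < 2 * m + 1, ∑ b ∈ Finset.range m, v.coeff (2 * b) * entry (k + 2 * b)
      + ∑ b ∈ Finset.range m, v.coeff (2 * b + 1) * entry (k + (2 * b + 1))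
      + v.coeff (2 * m) * entry (k + 2 * m) = 0 := by
    intro k hk
    have h1 := hvs k hk
    rw [act_apply_of_coeff hvc, Finset.sum_range_succ, sum_range_two_mul] at h1
    exact h1
  have hod : ∀ b < m, v.coeff (2 * b + 1) = 0 := by
    refine kernel_vec h (fun b => v.coeff (2 * b + 1)) fun a ha => ?_
    have h1 := hrow (2 * (a + 1)) (by omega)
    rw [Finset.sum_eq_zero (s := Finset.range m)
      (f := fun b => v.coeff (2 * b) * entry (2 * (a + 1) + 2 * b)), zero_add,
      show 2 * (a + 1) + 2 * m = 2 * (a + 1 + m) by ring, entry_even (by omega), mul_zero,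
      add_zero] at h1
    · rw [← h1]
      refine Finset.sum_congr rfl fun b _ => ?_
      rw [show 2 * (a + 1) + (2 * b + 1) = 2 * (a + b + 1) + 1 by ring, entry_odd, sp_five]
    · intro b _
      rw [show 2 * (a + 1) + 2 * b = 2 * (a + 1 + b) by ring, entry_even (by omega), mul_zero]
  have hz : v.coeff 0 = 0 := by
    have h1 := hrow 0 (by omega)
    have h2 : ∑ b ∈ Finset.range m, v.coeff (2 * b + 1) * entry (0 + (2 * b + 1)) = 0 :=
      Finset.sum_eq_zero fun b hb => by rw [hod b (Finset.mem_range.1 hb), zero_mul]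
    rw [h2, add_zero, ← Finset.sum_range_succ (fun b => v.coeff (2 * b) * entry (0 + 2 * b)),
      Finset.sum_range_succ'] at h1
    rw [Finset.sum_eq_zero, zero_add, mul_zero, add_zero, entry_zero, mul_one] at h1
    · exact h1
    · intro b _
      rw [zero_add, entry_even (by omega), mul_zero]
  have hev : ∀ b < m, v.coeff (2 * (b + 1)) = 0 := by
    refine kernel_vec h (fun b => v.coeff (2 * (b + 1))) fun a ha => ?_
    have h1 := hrow (2 * a + 1) (by omega)
    have h2 : ∑ b ∈ Finset.range m, v.coeff (2 * b + 1) * entry (2 * a + 1 + (2 * b + 1)) = 0 :=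
      Finset.sum_eq_zero fun b hb => by rw [hod b (Finset.mem_range.1 hb), zero_mul]
    rw [h2, add_zero,
      ← Finset.sum_range_succ (fun b => v.coeff (2 * b) * entry (2 * a + 1 + 2 * b)),
      Finset.sum_range_succ', mul_zero, hz, zero_mul, add_zero] at h1
    rw [← h1]
    refine Finset.sum_congr rfl fun b _ => ?_
    rw [show 2 * a + 1 + 2 * (b + 1) = 2 * (a + b + 1) + 1 by ring, entry_odd, sp_five]
  apply hv
  ext i
  rw [coeff_zero]
  by_cases hi : i < 2 * m + 1
  · rcases Nat.even_or_odd' i with ⟨b, rfl | rfl⟩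
    · rcases b with _ | b
      · exact hz
      · exact hev b (by omega)
    · exact hod b (by omega)
  · exact hvc i (not_lt.1 hi)

end PrimeLinC
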