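import Pool.Agent.PrimeLinC.Count

/-! Zeros at `deg Q` consecutive places of a residue class propagate to the whole class. -/

open Polynomial

namespace PrimeLinC

theorem act_expand (P : ℚ[X]) (d : ℕ) (F : ℕ → ℚ) (k : ℕ) :
    act (expand ℚ d P) F k
      = ∑ i ∈ Finset.range (P.natDegree + 1), P.coeff i * F (k + d * i) := by
  unfold act
  rw [expand_aeval, aeval_eq_sum_range, LinearMap.sum_apply, Finset.sum_apply]
  refine Finset.sum_congr rfl fun i _ => ?_
  rw [LinearMap.smul_apply, Pi.smul_apply, ← pow_mul, shift_pow_apply, smul_eq_mul]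

theorem exists_sub_ann {Q : ℚ[X]} (hQm : Q.Monic) (hQ0 : Q.coeff 0 ≠ 0) (d : ℕ) :
    ∃ P : ℚ[X], P.Monic ∧ P.coeff 0 ≠ 0 ∧ P.natDegree ≤ Q.natDegree ∧ Q ∣ expand ℚ d P := by
  have hQne : Q ≠ 0 := hQm.ne_zero
  set x : AdjoinRoot Q := AdjoinRoot.root Q with hx
  have hfin : Module.Finite ℚ (AdjoinRoot Q) := (AdjoinRoot.powerBasis hQne).finite
  have hrank : Module.finrank ℚ (AdjoinRoot Q) = Q.natDegree := by
    rw [(AdjoinRoot.powerBasis hQne).finrank, AdjoinRoot.powerBasis_dim]
  have hxu : IsUnit x := by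
    have h1 : AdjoinRoot.mk Q Q = 0 := AdjoinRoot.mk_self
    have h2 : Q = X * divX Q + C (Q.coeff 0) := by
      conv_lhs => rw [← divX_mul_X_add Q, mul_comm]
    rw [h2] at h1
    have h3 : AdjoinRoot.mk Q (X * divX Q + C (Q.coeff 0))
        = x * AdjoinRoot.mk Q (divX Q) + AdjoinRoot.of Q (Q.coeff 0) := by
      rw [map_add, map_mul, AdjoinRoot.mk_X, AdjoinRoot.mk_C]
    have h4 : x * AdjoinRoot.mk Q (divX Q) + AdjoinRoot.of Q (Q.coeff 0) = 0 := by
      rw [← h3, ← h2]; exact AdjoinRoot.mk_self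
    have h5 : IsUnit (AdjoinRoot.of Q (Q.coeff 0)) :=
      (isUnit_iff_ne_zero.2 hQ0).map (AdjoinRoot.of Q)
    have h6 : x * AdjoinRoot.mk Q (divX Q) = - AdjoinRoot.of Q (Q.coeff 0) :=
      eq_neg_of_add_eq_zero_left h4
    have h7 : IsUnit (x * AdjoinRoot.mk Q (divX Q)) := by rw [h6]; exact h5.neg
    exact isUnit_of_mul_isUnit_left h7
  have hyi : IsIntegral ℚ (x ^ d) := IsIntegral.of_finite ℚ _
  refine ⟨minpoly ℚ (x ^ d), minpoly.monic hyi, ?_, ?_, ?_⟩
  · intro h0
    have h1 : minpoly ℚ (x ^ d) = X * divX (minpoly ℚ (x ^ d)) := by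
      conv_lhs => rw [← divX_mul_X_add (minpoly ℚ (x ^ d)), h0, C_0, add_zero, mul_comm]
    have h2 : aeval (x ^ d) (minpoly ℚ (x ^ d)) = 0 := minpoly.aeval _ _
    rw [h1, map_mul, aeval_X] at h2
    have h3 : aeval (x ^ d) (divX (minpoly ℚ (x ^ d))) = 0 :=
      ((hxu.pow d).mul_right_eq_zero).1 h2
    have h4 : minpoly ℚ (x ^ d) ∣ divX (minpoly ℚ (x ^ d)) := minpoly.dvd _ _ h3
    have h5 : divX (minpoly ℚ (x ^ d)) ≠ 0 := by
      intro h6
      rw [h6, mul_zero] at h1
      exact (minpoly.monic hyi).ne_zero h1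
    have h6 := natDegree_le_of_dvd h4 h5
    have h7 : (minpoly ℚ (x ^ d)).natDegree = 1 + (divX (minpoly ℚ (x ^ d))).natDegree := by
      conv_lhs => rw [h1, natDegree_mul X_ne_zero h5, natDegree_X]
    omega
  · rw [← hrank]
    exact minpoly.natDegree_le _
  · rw [← AdjoinRoot.mk_eq_zero, expand_eq_comp_X_pow]
    have h1 : AdjoinRoot.mk Q ((minpoly ℚ (x ^ d)).comp (X ^ d))
        = aeval (x ^ d) (minpoly ℚ (x ^ d)) := by
      rw [← AdjoinRoot.aeval_eq, aeval_comp, map_pow, aeval_X]
    rw [h1, minpoly.aeval]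

theorem class_zero {Q : ℚ[X]} {F : ℕ → ℚ} (hQm : Q.Monic) (hQ0 : Q.coeff 0 ≠ 0)
    (hann : act Q F = 0) {d a : ℕ} (hz : ∀ j < Q.natDegree, F (a + d * j) = 0) :
    ∀ k, k ≡ a [MOD d] → F k = 0 := by
  obtain ⟨P, hPm, hP0, hPd, hdvd⟩ := exists_sub_ann hQm hQ0 d
  have hrel : ∀ k, ∑ i ∈ Finset.range (P.natDegree + 1), P.coeff i * F (k + d * i) = 0 := by
    intro k
    rw [← act_expand, act_eq_zero_of_dvd hdvd hann]; rfl
  -- forward
  have hfwd : ∀ j, F (a + d * j) = 0 := by
    intro j
    induction j using Nat.strong_induction_on with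
    | _ j ih =>
      by_cases hj : j < Q.natDegree
      · exact hz j hj
      · have h1 := hrel (a + d * (j - P.natDegree))
        rw [Finset.sum_range_succ, Finset.sum_eq_zero, zero_add] at h1
        · rw [hPm.coeff_natDegree, one_mul] at h1
          have : a + d * (j - P.natDegree) + d * P.natDegree = a + d * j := by
            rw [add_assoc, ← mul_add]; congr 2; omega
          rwa [this] at h1
        · intro i hi
          have hi' := Finset.mem_range.1 hi
          have : a + d * (j - P.natDegree) + d * i = a + d * (j - P.natDegree + i) := by ring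
          rw [this, ih _ (by omega), mul_zero]
  have hbwd : ∀ b k, k + d * b = a → ∀ j, F (k + d * j) = 0 := by
    intro b
    induction b with
    | zero =>
      intro k hk j
      rw [mul_zero, add_zero] at hk
      rw [hk]; exact hfwd j
    | succ b ih =>
      intro k hk j
      have hk' : (k + d) + d * b = a := by rw [← hk]; ring
      have h1 := ih (k + d) hk'
      have h2 : ∀ i, F (k + d * (i + 1)) = 0 := by
        intro i
        have := h1 i
        have h3 : k + d + d * i = k + d * (i + 1) := by ring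
        rwa [h3] at this
      rcases j with _ | j
      · have h3 := hrel k
        rw [Finset.sum_range_succ', Finset.sum_eq_zero, zero_add, mul_zero, add_zero] at h3
        · rw [mul_zero, add_zero]
          exact (mul_eq_zero.1 h3).resolve_left hP0
        · intro i _
          rw [h2, mul_zero]
      · exact h2 j
  intro k hk
  rcases le_total a k with h | h
  · obtain ⟨c, hc⟩ := (Nat.modEq_iff_dvd' h).1 hk.symm
    have : k = a + d * c := by omega
    rw [this]; exact hfwd c
  · obtain ⟨c, hc⟩ := (Nat.modEq_iff_dvd' h).1 hk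
    have h1 : k + d * c = a := by omega
    have := hbwd c k h1 0
    rwa [mul_zero, add_zero] at this

end PrimeLinC
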