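import Pool.Agent.PrimeLinC.Prop

/-! The indicator of the primes satisfies no short recurrence on a long window. -/

open Polynomial

namespace PrimeLinC

/-- `1` if `2k+b` is prime, else `0`. -/
noncomputable def fp (b : ℕ) : ℕ → ℚ := fun k => if (2 * k + b).Prime then 1 else 0

/-- `1` if `2k+b` is not prime, else `0`. -/
noncomputable def sp (b : ℕ) : ℕ → ℚ := fun k => if (2 * k + b).Prime then 0 else 1

theorem fp_eq (b : ℕ) : fp b = (fun _ => (1 : ℚ)) - sp b := by
  funext k
  rw [Pi.sub_apply, fp, sp]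
  split_ifs <;> norm_num

/-- The odd primes up to `D`. -/
def oddPrimes (D : ℕ) : Finset ℕ := (Finset.range (D + 1)).filter (fun p => p.Prime ∧ p ≠ 2)

/-- The sequence with annihilator `Q` (monic) and the initial values `g k`, `k < deg Q`. -/
noncomputable def extSeq (Q : ℚ[X]) (g : ℕ → ℚ) (k : ℕ) : ℚ :=
  if _h : k < Q.natDegree then g k
  else - ∑ i : Fin Q.natDegree, Q.coeff i * extSeq Q g (k - Q.natDegree + i)
termination_by k
decreasing_by
  have := i.isLt
  omega

theorem extSeq_lt {Q : ℚ[X]} {g : ℕ → ℚ} {k : ℕ} (h : k < Q.natDegree) : extSeq Q g k = g k := by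
  rw [extSeq, dif_pos h]

theorem extSeq_add {Q : ℚ[X]} {g : ℕ → ℚ} (k : ℕ) :
    extSeq Q g (k + Q.natDegree)
      = - ∑ i ∈ Finset.range Q.natDegree, Q.coeff i * extSeq Q g (k + i) := by
  rw [extSeq, dif_neg (by omega), Nat.add_sub_cancel,
    Fin.sum_univ_eq_sum_range (fun i => Q.coeff i * extSeq Q g (k + i)) Q.natDegree]

theorem act_monic_apply {Q : ℚ[X]} (hQ : Q.Monic) (F : ℕ → ℚ) (k : ℕ) :
    act Q F k = (∑ i ∈ Finset.range Q.natDegree, Q.coeff i * F (k + i)) + F (k + Q.natDegree) := by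
  rw [act_apply, Finset.sum_range_succ, hQ.coeff_natDegree, one_mul]

theorem act_extSeq {Q : ℚ[X]} (hQ : Q.Monic) (g : ℕ → ℚ) : act Q (extSeq Q g) = 0 := by
  funext k
  rw [act_monic_apply hQ, extSeq_add, Pi.zero_apply, add_neg_cancel]

theorem extSeq_eq {Q : ℚ[X]} (hQ : Q.Monic) {g : ℕ → ℚ} {L : ℕ} (h : ∀ k < L, act Q g k = 0) :
    ∀ k < L + Q.natDegree, extSeq Q g k = g k := by
  intro k
  induction k using Nat.strong_induction_on with
  | _ k ih =>
    intro hk
    by_cases h1 : k < Q.natDegree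
    · exact extSeq_lt h1
    · obtain ⟨j, rfl⟩ : ∃ j, k = j + Q.natDegree := ⟨k - Q.natDegree, by omega⟩
      have h2 := h j (by omega)
      rw [act_monic_apply hQ] at h2
      rw [extSeq_add, eq_comm, ← add_eq_zero_iff_eq_neg, add_comm]
      rw [← h2]
      congr 1
      refine Finset.sum_congr rfl fun i hi => ?_
      have hi' := Finset.mem_range.1 hi
      rw [ih (j + i) (by omega) (by omega)]

theorem window_false {b m M D : ℕ} (hb : b % 2 = 1) (hb3 : 3 ≤ b) (hb5 : b ≤ 5) {P : ℚ[X]}
    (hPm : P.Monic) (hPd : P.natDegree = m) (hP : ∀ k < M, act P (sp b) k = 0) (hD : 3 ≤ D)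
    (hMD : (m + 3) * D + 1 ≤ M) (hT : (m + 1) ^ 2 < (∏ p ∈ oddPrimes D, p).totient) : False := by
  classical
  -- the recurrence of `f`
  have hRf : ∀ k, k + 1 < M → act ((X - 1) * P) (fp b) k = 0 := by
    intro k hk
    rw [fp_eq, act_sub_seq, Pi.sub_apply]
    have h1 : act ((X - 1) * P) (fun _ => (1 : ℚ)) = 0 := by
      rw [mul_comm, act_mul]
      have : act (X - 1 : ℚ[X]) (fun _ => (1 : ℚ)) = 0 := by
        rw [act_sub, act_one]
        funext j
        have := act_X_pow (R := ℚ) 1 (fun _ => (1 : ℚ)) j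
        rw [pow_one] at this
        rw [Pi.sub_apply, this, Pi.zero_apply, sub_self]
      rw [this, act_zero_seq]
    rw [h1, Pi.zero_apply, zero_sub, act_mul, act_sub, act_one, Pi.sub_apply]
    have := act_X_pow (R := ℚ) 1 (act P (sp b)) k
    rw [pow_one] at this
    rw [this, hP (k + 1) hk, hP k (by omega), sub_zero, neg_zero]
  have hRm : ((X - 1) * P : ℚ[X]).Monic := by
    have : (X - 1 : ℚ[X]).Monic := by
      have := monic_X_sub_C (1 : ℚ)
      rwa [C_1] at this
    exact this.mul hPm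
  have hRd : ((X - 1) * P : ℚ[X]).natDegree = m + 1 := by
    have h1 : (X - 1 : ℚ[X]).Monic := by
      have := monic_X_sub_C (1 : ℚ)
      rwa [C_1] at this
    have h2 : (X - 1 : ℚ[X]).natDegree = 1 := by
      have := natDegree_X_sub_C (1 : ℚ)
      rwa [C_1] at this
    rw [h1.natDegree_mul hPm, h2, hPd, add_comm]
  obtain ⟨Q, hQ, hQX⟩ := exists_eq_pow_rootMultiplicity_mul_and_not_dvd ((X - 1) * P)
    hRm.ne_zero (0 : ℚ)
  rw [C_0, sub_zero] at hQ hQX
  set t := rootMultiplicity (0 : ℚ) ((X - 1) * P) with ht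
  have hQ0 : Q.coeff 0 ≠ 0 := fun h => hQX (X_dvd_iff.2 h)
  have hQm : Q.Monic := by
    have h1 : (X ^ t * Q : ℚ[X]).Monic := by rw [← hQ]; exact hRm
    exact (monic_X_pow t).of_mul_monic_left h1
  have hQd : t + Q.natDegree = m + 1 := by
    rw [← hRd, hQ, (monic_X_pow t).natDegree_mul hQm, natDegree_X_pow]
  set r := Q.natDegree with hr
  let g : ℕ → ℚ := fun k => fp b (k + t)
  have hg : ∀ k < M - 1, act Q g k = 0 := by
    intro k hk
    have h1 := hRf k (by omega)
    rw [hQ, act_mul, act_X_pow] at h1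
    rw [act_apply] at h1 ⊢
    rw [← h1]
    refine Finset.sum_congr rfl fun i _ => ?_
    show Q.coeff i * fp b (k + i + t) = Q.coeff i * fp b (k + t + i)
    rw [add_right_comm]
  set F := extSeq Q g with hF
  have hFann : act Q F = 0 := act_extSeq hQm g
  have hFg : ∀ k < M - 1 + r, F k = g k := extSeq_eq hQm hg
  have hM1 : (m + 3) * D ≤ M - 1 := by omega
  have hM3 : (m + 3) * 3 ≤ M - 1 := (Nat.mul_le_mul_left _ hD).trans hM1
  -- `F ≠ 0`
  have hFne : F ≠ 0 := by
    intro h0
    obtain ⟨p, hp, hp1, hp2⟩ := Nat.exists_prime_lt_and_le_two_mul (2 * t + b) (by omega)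
    have hpodd : p % 2 = 1 := by
      rcases hp.eq_two_or_odd with h | h
      · omega
      · exact h
    obtain ⟨k, hk⟩ : ∃ k, 2 * (k + t) + b = p := ⟨(p - b) / 2 - t, by omega⟩
    have h1 : F k = 1 := by
      rw [hFg k (by omega)]
      show fp b (k + t) = 1
      rw [fp, hk, if_pos hp]
    rw [h0, Pi.zero_apply] at h1
    exact zero_ne_one h1
  -- the classes
  let a : ℕ → ℕ := fun p => p + ((2 * (p + t) + b) * ((p - 1) / 2)) % p
  have ha : ∀ p ∈ oddPrimes D, ∀ k, p ∣ k + (p - 1) * a p → F k = 0 := by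
    intro p hp k hk
    rw [oddPrimes, Finset.mem_filter, Finset.mem_range] at hp
    obtain ⟨hpD, hpp, hp2⟩ := hp
    have hpodd : p % 2 = 1 := hpp.eq_two_or_odd.resolve_left hp2
    have hp3 : 3 ≤ p := by have := hpp.two_le; omega
    -- divisibility at `a p`
    have hdiv : p ∣ 2 * (a p + t) + b := by
      have e1 : 2 * ((p - 1) / 2) = p - 1 := by omega
      set c := 2 * (p + t) + b with hc
      have e2 : 2 * (a p + t) + b = c + 2 * ((c * ((p - 1) / 2)) % p) := by
        have e0 : a p = p + (c * ((p - 1) / 2)) % p := rfl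
        rw [e0]; omega
      rw [e2]
      have e3 : c + 2 * ((c * ((p - 1) / 2)) % p) ≡ c + 2 * (c * ((p - 1) / 2)) [MOD p] :=
        Nat.ModEq.add_left _ ((Nat.mod_modEq _ _).mul_left 2)
      have e4 : c + 2 * (c * ((p - 1) / 2)) = c * p := by
        calc c + 2 * (c * ((p - 1) / 2)) = c + c * (2 * ((p - 1) / 2)) := by ring
          _ = c + c * (p - 1) := by rw [e1]
          _ = c * (p - 1 + 1) := by ring
          _ = c * p := by congr 1; omega
      rw [e4] at e3
      exact (Nat.modEq_zero_iff_dvd).1 (e3.trans ((Nat.modEq_zero_iff_dvd).2 (dvd_mul_left p c)))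
    have halt : a p < 2 * p := by
      have : ((2 * (p + t) + b) * ((p - 1) / 2)) % p < p := Nat.mod_lt _ hpp.pos
      simp only [a]; omega
    have hage : p ≤ a p := Nat.le_add_right _ _
    have hz : ∀ j < r, F (a p + p * j) = 0 := by
      intro j hj
      have hlt : a p + p * j < M - 1 + r := by
        have e1 : p * j ≤ p * r - p := by
          have : p * (j + 1) ≤ p * r := Nat.mul_le_mul_left p hj
          rw [mul_add, mul_one] at this
          omega
        have e2 : p * r ≤ D * (m + 1) := Nat.mul_le_mul (by omega) (by omega)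
        have e3 : (m + 3) * D = D * (m + 1) + 2 * D := by ring
        have e4 : p ≤ p * r := Nat.le_mul_of_pos_right p (by omega)
        omega
      rw [hFg _ hlt]
      show fp b (a p + p * j + t) = 0
      rw [fp, if_neg]
      intro hprime
      have h1 : p ∣ 2 * (a p + p * j + t) + b := by
        have : 2 * (a p + p * j + t) + b = (2 * (a p + t) + b) + p * (2 * j) := by ring
        rw [this]
        exact dvd_add hdiv (dvd_mul_right _ _)
      rcases (Nat.dvd_prime hprime).1 h1 with h2 | h2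
      · omega
      · omega
    refine class_zero hQm hQ0 hFann hz k ?_
    have h1 : k + (p - 1) * a p ≡ 0 [MOD p] := (Nat.modEq_zero_iff_dvd).2 hk
    have h2 : k + (p - 1) * a p + a p ≡ 0 + a p [MOD p] := h1.add_right _
    have h3 : k + (p - 1) * a p + a p = k + p * a p := by
      rw [add_assoc]
      congr 1
      calc (p - 1) * a p + a p = (p - 1 + 1) * a p := by ring
        _ = p * a p := by congr 1; omega
    rw [h3, zero_add] at h2
    have h4 : k + p * a p ≡ k [MOD p] := by
      have : k + p * a p ≡ k + 0 [MOD p] :=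
        Nat.ModEq.add_left k ((Nat.modEq_zero_iff_dvd).2 (dvd_mul_right _ _))
      rwa [add_zero] at this
    exact h4.symm.trans h2
  have hfin := degree_bound hQ0 hFann hFne (oddPrimes D)
    (fun p hp => (Finset.mem_filter.1 hp).2.1) (fun p => (p - 1) * a p) ha
  have : Q.natDegree ^ 2 ≤ (m + 1) ^ 2 := Nat.pow_le_pow_left (by omega) 2
  omega

end PrimeLinC
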